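import Pool.Agent.MP_6a4325_al.H84.Spec3
import Pool.Agent.MP_6a4325_al.H19.Burn

/-!
Row AIA: absolutely irreducible matrix representations.
-/

set_option autoImplicit false

namespace Pool.Agent.MP_6a4325_al.H48

open Pool.Agent.MP_6a4325_al.H62 Pool.Agent.MP_6a4325_al.H84 Matrix
open scoped TensorProduct

namespace Aia

theorem tr {K V W G : Type} [Field K] [AddCommGroup V] [Module K V] [AddCommGroup W] [Module K W]
    (e : V ≃ₗ[K] W) {f : G → V} {f' : G → W} (hf : ∀ g, f' g = e (f g))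
    (h : Submodule.span K (Set.range f) = ⊤) : Submodule.span K (Set.range f') = ⊤ := by
  have h1 : f' = (e : V →ₗ[K] W) ∘ f := funext hf
  rw [h1, Set.range_comp, ← Submodule.map_span, h, Submodule.map_top]
  exact e.range

theorem span {K G M : Type} [Field K] [IsAlgClosed K] [Group G] [AddCommGroup M] [Module K M]
    (ρ : Representation K G M) [FiniteDimensional K M] (h : Irr ρ) :
    Submodule.span K (Set.range ρ) = ⊤ := by
  let A : Subalgebra K (Module.End K M) := Algebra.adjoin K (Set.range ρ)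
  have hA : Subalgebra.toSubmodule A = Submodule.span K (Set.range ρ) := by
    rw [Algebra.adjoin_eq_span, ← MonoidHom.coe_mrange, Submonoid.closure_eq]
  have := h.1
  have hs : IsSimpleModule A M := by
    refine { eq_bot_or_eq_top := fun U => ?_ }
    rcases h.2 (U.restrictScalars K) (fun g u hu =>
      U.smul_mem (⟨ρ g, Algebra.subset_adjoin ⟨g, rfl⟩⟩ : A) hu) with hU | hU
    · exact Or.inl ((Submodule.restrictScalars_eq_bot_iff _ _ _).1 hU)
    · exact Or.inr ((Submodule.restrictScalars_eq_top_iff _ _ _).1 hU)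
  refine eq_top_iff.2 fun f _ => ?_
  obtain ⟨r, hr⟩ := H19.burnside (k := K) (A := A) M f
  rw [show f = r.1 from LinearMap.ext hr, ← hA]
  exact r.2

variable {K G ι : Type} [Field K] [Group G] [Fintype ι] [DecidableEq ι]

theorem span_lin {ρ : G →* Matrix ι ι K} (h : AI ρ) : Submodule.span K (Set.range (lin ρ)) = ⊤ :=
  tr (Matrix.toLinAlgEquiv' (R := K) (n := ι)).toLinearEquiv (fun _ => rfl) h

theorem irr [Nonempty ι] {ρ : G →* Matrix ι ι K} (h : AI ρ) : Irr (lin ρ) := by
  refine ⟨inferInstance, fun U hU => ?_⟩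
  have h1 : ∀ f ∈ Submodule.span K (Set.range (lin ρ)), ∀ u ∈ U, f u ∈ U := by
    intro f hf
    induction hf using Submodule.span_induction with
    | mem f hf =>
      obtain ⟨g, rfl⟩ := hf
      exact hU g
    | zero => exact fun _ _ => U.zero_mem
    | add f f' _ _ a b => exact fun u hu => U.add_mem (a u hu) (b u hu)
    | smul c f _ a => exact fun u hu => U.smul_mem c (a u hu)
  rw [span_lin h] at h1
  refine or_iff_not_imp_left.2 fun h0 => eq_top_iff.2 fun w _ => ?_
  obtain ⟨u, hu, hu0⟩ := (Submodule.ne_bot_iff U).1 h0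
  obtain ⟨l, hl⟩ := Module.Projective.exists_dual_eq_one K hu0
  have h2 := h1 (l.smulRight w) trivial u hu
  rwa [LinearMap.smulRight_apply, hl, one_smul] at h2

theorem li (ρ : G →* Matrix ι ι K) :
    AI ρ ↔ LinearIndependent K fun (ij : ι × ι) (g : G) => ρ g ij.1 ij.2 := by
  rw [← span_flip_eq_top_iff_linearIndependent]
  let e : (ι × ι → K) ≃ₗ[K] Matrix ι ι K := (LinearEquiv.curry K K ι ι).trans (Matrix.ofLinearEquiv K)
  exact ⟨tr e.symm fun _ => rfl, tr e fun _ => rfl⟩

theorem map {K' : Type} [Field K'] {ρ : G →* Matrix ι ι K} (σ : K →+* K') (h : AI ρ) :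
    AI (σ.mapMatrix.toMonoidHom.comp ρ) := by
  have h1 : ∀ M ∈ Submodule.span K (Set.range ρ), σ.mapMatrix M ∈
      Submodule.span K' (Set.range (σ.mapMatrix.toMonoidHom.comp ρ)) := by
    intro M hM
    induction hM using Submodule.span_induction with
    | mem f hf =>
      obtain ⟨g, rfl⟩ := hf
      exact Submodule.subset_span ⟨g, rfl⟩
    | zero => rw [map_zero]; exact Submodule.zero_mem _
    | add f f' _ _ a b => rw [map_add]; exact Submodule.add_mem _ a b
    | smul c f _ a =>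
      rw [show σ.mapMatrix (c • f) = σ c • σ.mapMatrix f from
        Matrix.ext fun i j => map_mul σ c (f i j)]
      exact Submodule.smul_mem _ _ a
  rw [show Submodule.span K (Set.range ρ) = ⊤ from h] at h1
  refine eq_top_iff.2 fun M _ => ?_
  rw [Matrix.matrix_eq_sum_single M]
  refine Submodule.sum_mem _ fun i _ => Submodule.sum_mem _ fun j _ => ?_
  have h2 : Matrix.single i j (M i j) = M i j • σ.mapMatrix (Matrix.single i j (1 : K)) := by
    ext a b
    simp only [Matrix.single, Matrix.of_apply, Matrix.smul_apply, RingHom.mapMatrix_apply,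
      Matrix.map_apply, smul_eq_mul]
    split_ifs <;> simp
  rw [h2]
  exact Submodule.smul_mem _ _ (h1 _ trivial)

theorem common (p : ℕ) [Fact p.Prime] (K₁ K₂ : Type) [Field K₁] [Field K₂] [CharP K₁ p]
    [CharP K₂ p] : ∃ (K : Type) (_ : Field K) (_ : IsAlgClosed K) (_ : CharP K p),
      Nonempty (K₁ →+* K) ∧ Nonempty (K₂ →+* K) := by
  let _ := ZMod.algebra K₁ p
  let _ := ZMod.algebra K₂ p
  obtain ⟨m, hm⟩ := Ideal.exists_maximal (K₁ ⊗[ZMod p] K₂)
  let _ := Ideal.Quotient.field m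
  let φ : K₁ ⊗[ZMod p] K₂ →+* AlgebraicClosure (K₁ ⊗[ZMod p] K₂ ⧸ m) :=
    (algebraMap _ _).comp (Ideal.Quotient.mk m)
  let f₁ := φ.comp (Algebra.TensorProduct.includeLeftRingHom (R := ZMod p) (A := K₁) (B := K₂))
  exact ⟨_, inferInstance, inferInstance, charP_of_injective_ringHom f₁.injective p, ⟨f₁⟩,
    ⟨φ.comp (Algebra.TensorProduct.includeRight (R := ZMod p) (A := K₁) (B := K₂)).toRingHom⟩⟩

end Aia

theorem aiApi : AiApi where
  burn _ _ _ _ _ _ _ _ _ _ _ b ρ h :=
    have := Module.Finite.of_basis b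
    Aia.tr (LinearMap.toMatrixAlgEquiv b).toLinearEquiv (fun _ => rfl) (Aia.span ρ h)
  span _ _ _ _ _ _ _ _ ρ _ h := Aia.span ρ h
  irr _ _ _ _ _ _ _ _ _ h := Aia.irr h
  conj _ _ _ _ _ _ _ _ _ _ _ b h :=
    Aia.tr (LinearMap.toMatrixAlgEquiv b).toLinearEquiv (fun _ => rfl) (Aia.span_lin h)
  li _ _ _ _ _ _ _ ρ := Aia.li ρ
  map _ _ _ _ _ _ _ _ _ _ σ h := Aia.map σ h
  reindex K _ ι κ _ _ _ _ _ _ ρ e h :=
    ⟨((Matrix.reindexAlgEquiv K K e.symm : Matrix ι ι K ≃ₐ[K] Matrix κ κ K) :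
      Matrix ι ι K →* Matrix κ κ K).comp ρ,
      Aia.tr (Matrix.reindexAlgEquiv K K e.symm).toLinearEquiv (fun _ => rfl) h, fun _ _ _ => rfl⟩
  common := Aia.common

end Pool.Agent.MP_6a4325_al.H48
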