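import Pool.Agent.MP_6a4325_al.H62.Base2

/-!
Row CH: constructions of characters of abelian groups.
-/

set_option autoImplicit false

namespace Pool.Agent.MP_6a4325_al.H48

open H62

section

variable {p : ℕ} {k : Type} [Field k]

theorem ext_ch [IsAlgClosed k] (B : Type) [CommGroup B] (C : Subgroup B) (χ : C →* kˣ) :
    ∃ ψ : B →* kˣ, ∀ c : C, ψ c = χ c := by
  have hs : ∀ {n : ℕ}, n ≠ 0 → Function.Surjective (fun a : Additive kˣ => n • a) := by
    intro n hn a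
    obtain ⟨z, hz⟩ := IsAlgClosed.exists_pow_nat_eq ((Additive.toMul a : kˣ) : k)
      (Nat.pos_of_ne_zero hn)
    have hz0 : z ≠ 0 := by
      rintro rfl
      rw [zero_pow hn] at hz
      exact (Units.ne_zero _) hz.symm
    refine ⟨Additive.ofMul (Units.mk0 z hz0), ?_⟩
    apply Additive.toMul.injective
    apply Units.ext
    simpa using hz
  let _ : DivisibleBy (Additive kˣ) ℕ := divisibleByOfSMulRightSurj _ _ hs
  let _ : DivisibleBy (Additive kˣ) ℤ := AddGroup.divisibleByIntOfDivisibleByNat _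
  obtain ⟨g, hg⟩ := (Module.Baer.of_divisible (Additive kˣ)).extension_property_addMonoidHom
    (MonoidHom.toAdditive C.subtype) C.subtype_injective (MonoidHom.toAdditive χ)
  refine ⟨MonoidHom.toAdditive.symm g, fun c => ?_⟩
  have := DFunLike.congr_fun hg (Additive.ofMul c)
  exact congrArg Additive.toMul this

theorem sep_bot [Fact p.Prime] [CharP k p] [IsAlgClosed k] (B : Type) [CommGroup B] (c : B)
    (hc : c ≠ 1) (m : ℕ) (hm : m.Coprime p) (hcm : c ^ m = 1) :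
    ∃ ψ : B →* kˣ, ψ c ≠ 1 := by
  have hp : p.Prime := Fact.out
  have hdvd : orderOf c ∣ m := orderOf_dvd_of_pow_eq_one hcm
  have hco : (orderOf c).Coprime p := Nat.Coprime.coprime_dvd_left hdvd hm
  have hne : ((orderOf c : ℕ) : k) ≠ 0 := by
    intro h
    rw [CharP.cast_eq_zero_iff k p] at h
    exact hp.one_lt.ne' (Nat.Coprime.eq_one_of_dvd hco.symm h)
  have : NeZero ((orderOf c : ℕ) : k) := ⟨hne⟩
  have h0 : orderOf c ≠ 0 := by
    intro h
    rw [h] at hne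
    exact hne Nat.cast_zero
  have : NeZero (orderOf c) := ⟨h0⟩
  obtain ⟨ζ, hζ⟩ := HasEnoughRootsOfUnity.exists_primitiveRoot k (orderOf c)
  have hu : IsUnit ζ := hζ.isUnit h0
  have hζ' : IsPrimitiveRoot hu.unit (orderOf c) := hζ.isUnit_unit h0
  let g : Subgroup.zpowers c := ⟨c, Subgroup.mem_zpowers c⟩
  have hg : ∀ x : Subgroup.zpowers c, x ∈ Subgroup.zpowers g := by
    rintro ⟨x, n, rfl⟩
    exact ⟨n, Subtype.ext (by simp [g])⟩
  have hord : orderOf hu.unit ∣ orderOf g := by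
    rw [← hζ'.eq_orderOf, ← Subgroup.orderOf_coe]
  obtain ⟨ψ, hψ⟩ := ext_ch B (Subgroup.zpowers c) (monoidHomOfForallMemZpowers hg hord)
  refine ⟨ψ, ?_⟩
  have h1 := hψ g
  rw [monoidHomOfForallMemZpowers_apply_gen] at h1
  change ψ c = _ at h1
  rw [h1]
  intro h
  have h2 : orderOf c = 1 := by
    rw [hζ'.eq_orderOf, h, orderOf_one]
  exact hc (orderOf_eq_one_iff.mp h2)

theorem sep_ch [Fact p.Prime] [CharP k p] [IsAlgClosed k] (B : Type) [CommGroup B]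
    (D : Subgroup B) (c : B) (hc : c ∉ D) (hP : PrimeTo p D c) :
    ∃ ψ : B →* kˣ, (∀ d ∈ D, ψ d = 1) ∧ ψ c ≠ 1 := by
  obtain ⟨m, -, hm, hcm⟩ := hP
  obtain ⟨ψ, hψ⟩ := sep_bot (k := k) (B ⧸ D) (QuotientGroup.mk' D c)
    (by simpa [QuotientGroup.eq_one_iff] using hc) m hm
    (by rw [← map_pow]; exact (QuotientGroup.eq_one_iff _).mpr hcm)
  refine ⟨ψ.comp (QuotientGroup.mk' D), fun d hd => ?_, hψ⟩
  have : QuotientGroup.mk' D d = 1 := by simpa [QuotientGroup.eq_one_iff] using hd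
  rw [MonoidHom.comp_apply, this, map_one]

theorem step_ch [Fact p.Prime] [CharP k p] [IsAlgClosed k] (B : Type) [CommGroup B]
    (C : Subgroup B) (h1 : ∀ c ∈ C, PrimeTo p ⊥ c) (h2 : (C : Set B).Infinite)
    (X : Subgroup B) (hX : (X : Set B).Finite) (ψ : B →* kˣ) :
    ∃ (X' : Subgroup B) (ψ' : B →* kˣ), (X' : Set B).Finite ∧ X ≤ X' ∧ (∀ x ∈ X, ψ' x = ψ x) ∧
      ∃ c ∈ C, c ∈ X' ∧ ψ' c ≠ 1 := by
  obtain ⟨c, hcC, hcX⟩ := h2.exists_notMem_finite hX
  obtain ⟨m, hm0, hm, hcm⟩ := h1 c hcC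
  have hfin : IsOfFinOrder c := isOfFinOrder_iff_pow_eq_one.mpr ⟨m, hm0, Subgroup.mem_bot.mp hcm⟩
  have hX' : ((X ⊔ Subgroup.zpowers c : Subgroup B) : Set B).Finite := by
    refine (hX.image2 (· * ·) hfin.finite_zpowers).subset ?_
    intro x hx
    obtain ⟨a, ha, b, hb, rfl⟩ := Subgroup.mem_sup.mp hx
    exact ⟨a, ha, b, hb, rfl⟩
  have hmem : c ∈ X ⊔ Subgroup.zpowers c :=
    Subgroup.mem_sup_right (Subgroup.mem_zpowers c)
  by_cases h : ψ c = 1
  · obtain ⟨η, hη1, hη2⟩ := sep_ch (k := k) B X c hcX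
      ⟨m, hm0, hm, by rw [Subgroup.mem_bot.mp hcm]; exact X.one_mem⟩
    refine ⟨_, ψ * η, hX', le_sup_left, fun x hx => ?_, c, hcC, hmem, ?_⟩
    · simp [hη1 x hx]
    · simpa [h] using hη2
  · exact ⟨_, ψ, hX', le_sup_left, fun _ _ => rfl, c, hcC, hmem, h⟩

theorem one_bot [Fact p.Prime] [CharP k p] [IsAlgClosed k] (B : Type) [CommGroup B]
    (C : ℕ → Subgroup B) (h1 : ∀ i, ∀ c ∈ C i, PrimeTo p ⊥ c) (h2 : ∀ i, (C i : Set B).Infinite) :
    ∃ ψ : B →* kˣ, ∀ i, ∃ c ∈ C i, ψ c ≠ 1 := by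
  choose! X' ψ' hfin hle hext hc using fun i X hX ψ =>
    step_ch (k := k) B (C i) (h1 i) (h2 i) X hX ψ
  let s : ℕ → Subgroup B × (B →* kˣ) := fun n =>
    Nat.rec (⊥, 1) (fun i t => (X' i t.1 t.2, ψ' i t.1 t.2)) n
  have hs : ∀ n, s (n + 1) = (X' n (s n).1 (s n).2, ψ' n (s n).1 (s n).2) := fun _ => rfl
  have hf : ∀ n, ((s n).1 : Set B).Finite := by
    intro n
    induction n with
    | zero => exact Set.finite_one
    | succ n ih => rw [hs]; exact hfin n _ ih _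
  have hmono : Monotone fun n => (s n).1 :=
    monotone_nat_of_le_succ fun n => by rw [hs]; exact hle n _ (hf n) _
  have hagree : ∀ n m, n ≤ m → ∀ x ∈ (s n).1, (s m).2 x = (s n).2 x := by
    intro n m hnm x hx
    induction m, hnm using Nat.le_induction with
    | base => rfl
    | succ m hnm ih =>
      rw [← ih, hs]
      exact hext m _ (hf m) _ x (hmono hnm hx)
  let Y : Subgroup B := ⨆ n, (s n).1
  have hY : ∀ y : Y, ∃ n, (y : B) ∈ (s n).1 := fun y =>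
    (Subgroup.mem_iSup_of_directed hmono.directed_le).mp y.2
  choose N hN using hY
  have hval : ∀ (y : Y) (n : ℕ), (y : B) ∈ (s n).1 → (s (N y)).2 y = (s n).2 y := by
    intro y n hn
    rw [← hagree _ _ (le_max_left (N y) n) _ (hN y), hagree _ _ (le_max_right (N y) n) _ hn]
  let χ : Y →* kˣ := MonoidHom.mk' (fun y => (s (N y)).2 y) (by
    intro a b
    have ha : (a : B) ∈ (s (max (N a) (N b))).1 := hmono (le_max_left _ _) (hN a)
    have hb : (b : B) ∈ (s (max (N a) (N b))).1 := hmono (le_max_right _ _) (hN b)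
    rw [hval a _ ha, hval b _ hb, hval (a * b) _ (mul_mem ha hb), ← map_mul]
    rfl)
  obtain ⟨ψ, hψ⟩ := ext_ch B Y χ
  refine ⟨ψ, fun i => ?_⟩
  obtain ⟨c, hcC, hcX, hc1⟩ := hc i _ (hf i) (s i).2
  have hcX' : c ∈ (s (i + 1)).1 := hcX
  have hcY : c ∈ Y := Subgroup.mem_iSup_of_mem (i + 1) hcX'
  refine ⟨c, hcC, ?_⟩
  have h3 := hψ ⟨c, hcY⟩
  change ψ c = (s (N ⟨c, hcY⟩)).2 ((⟨c, hcY⟩ : Y) : B) at h3
  rw [h3, hval ⟨c, hcY⟩ (i + 1) hcX']
  exact hc1

theorem one_ch [Fact p.Prime] [CharP k p] [IsAlgClosed k] (B : Type) [CommGroup B]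
    (D : Subgroup B) (C : ℕ → Subgroup B) (h1 : ∀ i, ∀ c ∈ C i, PrimeTo p D c)
    (h2 : ∀ i, D.relIndex (C i) = 0) :
    ∃ ψ : B →* kˣ, (∀ d ∈ D, ψ d = 1) ∧ ∀ i, ∃ c ∈ C i, ψ c ≠ 1 := by
  obtain ⟨ψ, hψ⟩ := one_bot (p := p) (k := k) (B ⧸ D)
    (fun i => (C i).map (QuotientGroup.mk' D)) (by
      rintro i _ ⟨c, hc, rfl⟩
      obtain ⟨m, hm0, hm, hcm⟩ := h1 i c hc
      refine ⟨m, hm0, hm, ?_⟩
      rw [← map_pow, Subgroup.mem_bot]
      exact (QuotientGroup.eq_one_iff _).mpr hcm) (by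
      intro i
      have h3 := Subgroup.relIndex_ker (K := C i) (QuotientGroup.mk' D)
      rw [QuotientGroup.ker_mk', h2 i] at h3
      rw [← Set.infinite_coe_iff]
      rcases Nat.card_eq_zero.mp h3.symm with h | h
      · exact absurd h (not_isEmpty_iff.mpr ⟨1⟩)
      · exact h)
  refine ⟨ψ.comp (QuotientGroup.mk' D), fun d hd => ?_, fun i => ?_⟩
  · have : QuotientGroup.mk' D d = 1 := by simpa [QuotientGroup.eq_one_iff] using hd
    rw [MonoidHom.comp_apply, this, map_one]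
  · obtain ⟨_, ⟨c, hc, rfl⟩, h⟩ := hψ i
    exact ⟨c, hc, h⟩

theorem primeTo_closure (B : Type) [CommGroup B] (S : Set B) (h : ∀ c ∈ S, PrimeTo p ⊥ c) :
    ∀ c ∈ Subgroup.closure S, PrimeTo p ⊥ c := by
  intro c hc
  induction hc using Subgroup.closure_induction with
  | mem x hx => exact h x hx
  | one => exact ⟨1, one_pos, Nat.coprime_one_left p, by simp⟩
  | mul x y _ _ hx hy =>
    obtain ⟨m, hm0, hm, hxm⟩ := hx
    obtain ⟨n, hn0, hn, hyn⟩ := hy
    refine ⟨m * n, mul_pos hm0 hn0, Nat.Coprime.mul_left hm hn, ?_⟩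
    rw [Subgroup.mem_bot] at hxm hyn ⊢
    rw [mul_pow, pow_mul, hxm, mul_comm m n, pow_mul, hyn, one_pow, one_pow, one_mul]
  | inv x _ hx =>
    obtain ⟨m, hm0, hm, hxm⟩ := hx
    refine ⟨m, hm0, hm, ?_⟩
    rw [inv_pow]
    exact inv_mem hxm

theorem two_ch [Fact p.Prime] [CharP k p] [IsAlgClosed k] (B : Type) [CommGroup B] (c : ℕ → B)
    (h : ∀ i, c i ≠ 1 ∧ PrimeTo p ⊥ (c i)) : ∃ ψ : B →* kˣ, {i | ψ (c i) ≠ 1}.Infinite := by
  by_cases hv : ∃ j, {i | c i = c j}.Infinite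
  · obtain ⟨j, hj⟩ := hv
    obtain ⟨ψ, -, hψ⟩ := sep_ch (k := k) B ⊥ (c j) (by simpa using (h j).1) (h j).2
    refine ⟨ψ, hj.mono fun i hi => ?_⟩
    have hi' : c i = c j := hi
    change ψ (c i) ≠ 1
    rwa [hi']
  · have hfib : ∀ j, {i | c i = c j}.Finite := fun j => by
      by_contra h'
      exact hv ⟨j, h'⟩
    obtain ⟨ψ, hψ⟩ := one_bot (p := p) (k := k) B
      (fun n => Subgroup.closure (c '' Set.Ici n))
      (fun n => primeTo_closure B _ (by rintro _ ⟨i, -, rfl⟩; exact (h i).2)) (by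
        intro n
        refine Set.Infinite.mono Subgroup.subset_closure ?_
        intro hfin
        refine Set.Ici_infinite n ?_
        refine Set.Finite.of_finite_fibers c hfin ?_
        rintro _ ⟨j, -, rfl⟩
        exact (hfib j).subset fun i hi => hi.2)
    refine ⟨ψ, Set.infinite_of_forall_exists_gt fun n => ?_⟩
    obtain ⟨x, hx, hx1⟩ := hψ (n + 1)
    by_contra hcon
    apply hx1
    have : Subgroup.closure (c '' Set.Ici (n + 1)) ≤ ψ.ker := by
      rw [Subgroup.closure_le]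
      rintro _ ⟨i, hi, rfl⟩
      by_contra h'
      exact hcon ⟨i, h', hi⟩
    exact this hx

theorem three_ch [Fact p.Prime] [CharP k p] [IsAlgClosed k] (B : Type) [CommGroup B]
    (D C : Subgroup B) (h1 : ∀ c ∈ C, PrimeTo p D c)
    (h2 : ∀ ψ : B →* kˣ, (ψ '' (C : Set B)).Finite) :
    ∃ m : ℕ, 0 < m ∧ ∀ c ∈ C, c ^ m ∈ D := by
  by_contra hcon
  obtain ⟨ψ, -, hψ⟩ := one_ch (p := p) (k := k) B D
    (fun i => C.map (powMonoidHom (i + 1))) (by
      rintro i _ ⟨c, hc, rfl⟩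
      exact h1 _ (pow_mem hc _)) (by
      intro i
      by_contra hr
      refine hcon ⟨(i + 1) * D.relIndex (C.map (powMonoidHom (i + 1))),
        mul_pos i.succ_pos (Nat.pos_of_ne_zero hr), fun c hc => ?_⟩
      rw [pow_mul]
      exact D.pow_relIndex_mem ⟨c, hc, rfl⟩)
  have hfin : Finite (C.map ψ) := (h2 ψ).to_subtype
  have hpos : 0 < Nat.card (C.map ψ) := Nat.card_pos
  obtain ⟨_, ⟨c, hc, rfl⟩, h⟩ := hψ (Nat.card (C.map ψ) - 1)
  apply h
  have h3 : (⟨ψ c, c, hc, rfl⟩ : C.map ψ) ^ Nat.card (C.map ψ) = 1 := pow_card_eq_one'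
  have h4 : ψ c ^ Nat.card (C.map ψ) = 1 := congrArg Subtype.val h3
  rw [powMonoidHom_apply, Nat.sub_add_cancel hpos, map_pow, h4]

end

theorem ch : SCh := fun _ _ _ _ _ _ =>
  { ext := ext_ch
    sep := sep_ch
    one := one_ch
    two := two_ch
    three := three_ch }

end Pool.Agent.MP_6a4325_al.H48
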